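import Mathlib

namespace Pool.Agent.Results.MP_b06300_an.Simul

open Finset Module

/-- the restrictions to `E` of the characters in `Λ` form a basis of the functions on `E` -/
def IsRiesz {G : Type*} [AddCommGroup G] (E : Finset G) (Λ : Finset (AddChar G ℂ)) : Prop :=
  Λ.card = E.card ∧ LinearIndependent ℂ fun (χ : Λ) (x : E) => (χ : AddChar G ℂ) (x : G)

section matroid
variable {α : Type*} [DecidableEq α]

structure IsRank (r : Finset α → ℕ) : Prop where
  mono : ∀ A B, A ⊆ B → r A ≤ r B
  sub : ∀ A B, r (A ∪ B) + r (A ∩ B) ≤ r A + r B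
  card : ∀ A, r A ≤ A.card

lemma IsRank.ins {r : Finset α → ℕ} (h : IsRank r) (e : α) (A : Finset α) :
    r (insert e A) ≤ r A + 1 := by
  have h1 := h.sub {e} A
  have h2 := h.card {e}
  rw [← insert_eq] at h1
  simp at h2; omega

lemma IsRank.absorb {r : Finset α → ℕ} (h : IsRank r) (e : α) (C A : Finset α)
    (he : r (insert e C) ≤ r C) : r (C ∪ insert e A) ≤ r (C ∪ A) := by
  have h1 := h.sub (C ∪ A) (insert e C)
  have h2 := h.mono C ((C ∪ A) ∩ insert e C) (by intro x hx; simp [hx])
  have h3 : C ∪ A ∪ insert e C = C ∪ insert e A := by ext x; simp; tauto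
  rw [h3] at h1; omega

theorem inter {r s : Finset α → ℕ} (hr : IsRank r) (hs : IsRank s) (k : ℕ) (E : Finset α) :
    ∀ C : Finset α, Disjoint C E → r C = C.card → s C = C.card →
      (∀ A ⊆ E, k + C.card ≤ r (C ∪ A) + s (C ∪ (E \ A))) →
      ∃ I, r I = I.card ∧ s I = I.card ∧ k ≤ I.card := by
  induction E using Finset.induction_on with
  | empty =>
    intro C _ h1 h2 h
    have := h ∅ (by simp)
    simp at this
    exact ⟨C, h1, h2, by omega⟩
  | insert e E he ih =>
    intro C hd h1 h2 h
    have heC : e ∉ C := fun hc => disjoint_left.1 hd hc (mem_insert_self _ _)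
    have hd' : Disjoint C E := hd.mono_right (subset_insert _ _)
    by_cases c1 : ∀ A ⊆ E, k + C.card ≤ r (C ∪ A) + s (C ∪ (E \ A))
    · exact ih C hd' h1 h2 c1
    push Not at c1
    obtain ⟨A, hA, hA2⟩ := c1
    have heA : e ∉ A := fun h => he (hA h)
    have g1 := h (insert e A) (insert_subset_insert _ hA)
    have g2 := h A (hA.trans (subset_insert _ _))
    rw [insert_sdiff_insert, sdiff_insert_of_notMem he] at g1
    rw [insert_sdiff_of_notMem _ heA] at g2
    have r1 : r (insert e C) = (insert e C).card := by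
      rw [card_insert_of_notMem heC]
      have := hr.ins e C
      by_contra hn
      have := hr.absorb e C A (by omega)
      omega
    have s1 : s (insert e C) = (insert e C).card := by
      rw [card_insert_of_notMem heC]
      have := hs.ins e C
      by_contra hn
      have := hs.absorb e C (E \ A) (by omega)
      omega
    refine ih (insert e C) (by simp [he, hd']) r1 s1 fun B hB => ?_
    rw [card_insert_of_notMem heC]
    have u1 := hr.sub (C ∪ A) (insert e C ∪ B)
    have u2 := hs.sub (C ∪ (E \ A)) (insert e C ∪ (E \ B))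
    have g3 := h (insert e (A ∪ B)) (insert_subset_insert _ (union_subset hA hB))
    have g4 := h (A ∩ B) ((inter_subset_left.trans hA).trans (subset_insert _ _))
    have m1 := hr.mono (C ∪ insert e (A ∪ B)) (C ∪ A ∪ (insert e C ∪ B))
      (by intro x; simp; tauto)
    have m2 := hr.mono (C ∪ A ∩ B) ((C ∪ A) ∩ (insert e C ∪ B)) (by intro x; simp; tauto)
    have m3 := hs.mono (C ∪ (insert e E \ (A ∩ B))) (C ∪ (E \ A) ∪ (insert e C ∪ (E \ B)))
      (by intro x; simp; tauto)
    have m4 := hs.mono (C ∪ (insert e E \ insert e (A ∪ B)))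
      ((C ∪ (E \ A)) ∩ (insert e C ∪ (E \ B))) (by intro x; simp; tauto)
    omega

lemma IsRank.basis {r : Finset α → ℕ} (h : IsRank r) (A : Finset α) :
    ∃ B, r B = B.card ∧ r A ≤ B.card := by
  obtain ⟨I, h1, -, h2⟩ := inter h h (r A) A ∅ (by simp) (by simpa using h.card ∅)
    (by simpa using h.card ∅) (fun S hS => by
      have := h.sub S (A \ S)
      rw [union_sdiff_of_subset hS] at this
      simp only [card_empty, empty_union]; omega)
  exact ⟨I, h1, h2⟩

lemma IsRank.indep_sub {r : Finset α → ℕ} (h : IsRank r) {B S : Finset α} (hB : r B = B.card)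
    (hS : S ⊆ B) : S.card ≤ r S := by
  have h1 := h.sub S (B \ S)
  rw [union_sdiff_of_subset hS] at h1
  have h2 := h.card (B \ S)
  have h3 := card_sdiff_add_card_eq_card hS
  omega

end matroid

variable {G : Type*} [AddCommGroup G] [Fintype G]

def vec (E : Finset G) (χ : AddChar G ℂ) : E → ℂ := fun x => χ x

noncomputable def rk (E : Finset G) (A : Finset (AddChar G ℂ)) : ℕ :=
  finrank ℂ (Submodule.span ℂ (vec E '' (A : Set (AddChar G ℂ))))

lemma rk_isRank (E : Finset G) [DecidableEq (AddChar G ℂ)] : IsRank (rk E) where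
  mono A B h := Submodule.finrank_mono (Submodule.span_mono (Set.image_mono h))
  sub A B := by
    unfold rk
    rw [← Submodule.finrank_sup_add_finrank_inf_eq (Submodule.span ℂ (vec E '' (A : Set _))),
      coe_union, Set.image_union, Submodule.span_union]
    apply Nat.add_le_add_left
    apply Submodule.finrank_mono
    apply le_inf
    · exact Submodule.span_mono (Set.image_mono (coe_subset.2 inter_subset_left))
    · exact Submodule.span_mono (Set.image_mono (coe_subset.2 inter_subset_right))
  card A := by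
    classical
    unfold rk
    rw [← coe_image]
    exact (finrank_span_finset_le_card _).trans card_image_le

lemma rk_le (E : Finset G) (A : Finset (AddChar G ℂ)) : rk E A ≤ E.card := by
  refine (Submodule.finrank_le _).trans ?_
  simp

lemma rk_univ (E : Finset G) : rk E univ = E.card := by
  classical
  unfold rk
  have : Submodule.span ℂ (vec E '' ((univ : Finset (AddChar G ℂ)) : Set _)) = ⊤ := by
    let R : (G → ℂ) →ₗ[ℂ] (E → ℂ) := LinearMap.funLeft ℂ ℂ Subtype.val
    have hs : Function.Surjective R :=
      LinearMap.funLeft_surjective_of_injective _ _ _ Subtype.val_injective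
    have := (AddChar.complexBasis G).span_eq
    have h2 : vec E '' ((univ : Finset (AddChar G ℂ)) : Set _) =
        R '' Set.range (AddChar.complexBasis G) := by
      ext f; simp only [coe_univ, Set.image_univ, Set.mem_range, Set.mem_image]
      constructor
      · rintro ⟨χ, rfl⟩; exact ⟨_, ⟨χ, rfl⟩, by ext x; simp [R, vec]⟩
      · rintro ⟨_, ⟨χ, rfl⟩, rfl⟩; exact ⟨χ, by ext x; simp [R, vec]⟩
    rw [h2, ← Submodule.map_span, this, Submodule.map_top, LinearMap.range_eq_top.2 hs]
  rw [this]; simp

lemma rk_shift (E : Finset G) [DecidableEq (AddChar G ℂ)] (ψ : AddChar G ℂ)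
    (A : Finset (AddChar G ℂ)) : rk E (A.image fun χ => ψ + χ) ≤ rk E A := by
  let M : (E → ℂ) →ₗ[ℂ] (E → ℂ) := LinearMap.mulLeft ℂ (vec E ψ)
  have : vec E '' ((A.image fun χ => ψ + χ : Finset _) : Set _) = M '' (vec E '' (A : Set _)) := by
    rw [coe_image, Set.image_image, Set.image_image]
    congr 1
  unfold rk
  rw [this, ← Submodule.map_span]
  exact Submodule.finrank_map_le _ _

lemma rk_lower (E : Finset G) (A : Finset (AddChar G ℂ)) :
    A.card * E.card ≤ Fintype.card (AddChar G ℂ) * rk E A := by
  classical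
  obtain ⟨B, hB, hB2⟩ := (rk_isRank E).basis univ
  rw [rk_univ] at hB2
  have key : ∀ ψ, (B.filter fun χ => χ - ψ ∈ A).card ≤ rk E A := by
    intro ψ
    refine ((rk_isRank E).indep_sub hB (filter_subset _ _)).trans
      (le_trans ((rk_isRank E).mono _ _ ?_) (rk_shift E ψ A))
    intro χ hχ
    exact mem_image.2 ⟨χ - ψ, (mem_filter.1 hχ).2, by abel⟩
  calc A.card * E.card ≤ A.card * B.card := by gcongr
    _ = ∑ χ ∈ B, (univ.filter fun ψ => χ - ψ ∈ A).card := by
        rw [sum_congr rfl (g := fun _ => A.card), sum_const, smul_eq_mul, mul_comm]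
        intro χ _
        refine card_bij (fun ψ _ => χ - ψ) (fun ψ h => (mem_filter.1 h).2)
          (fun a _ b _ h => sub_right_injective h) fun a ha => ⟨χ - a, by simpa using ha, by abel⟩
    _ = ∑ ψ, (B.filter fun χ => χ - ψ ∈ A).card := by
        simp only [card_filter]; exact sum_comm
    _ ≤ ∑ _ψ : AddChar G ℂ, rk E A := sum_le_sum fun ψ _ => key ψ
    _ = _ := by simp

theorem result (G : Type*) [AddCommGroup G] [Fintype G] (E₁ E₂ : Finset G) (_h : E₁.Nonempty)
    (hc : E₁.card = E₂.card) : ∃ Λ : Finset (AddChar G ℂ), IsRiesz E₁ Λ ∧ IsRiesz E₂ Λ := by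
  classical
  obtain ⟨I, h1, h2, h3⟩ := inter (rk_isRank E₁) (rk_isRank E₂) E₁.card univ ∅ (by simp)
    (by simpa using (rk_isRank E₁).card ∅) (by simpa using (rk_isRank E₂).card ∅) (fun A _ => by
      have a := rk_lower E₁ A
      have b := rk_lower E₂ (univ \ A)
      have c := card_sdiff_add_card_eq_card (subset_univ A)
      rw [card_univ] at c
      simp only [card_empty, empty_union, add_zero]
      have p : 0 < Fintype.card (AddChar G ℂ) := Fintype.card_pos
      apply Nat.le_of_mul_le_mul_left _ p
      rw [← hc] at b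
      rw [mul_add]
      calc _ = A.card * E₁.card + (univ \ A).card * E₁.card := by rw [← c]; ring
        _ ≤ _ := add_le_add a b)
  have h4 := rk_le E₁ I
  have li : ∀ E : Finset G, rk E I = I.card →
      LinearIndependent ℂ fun (χ : I) (x : E) => (χ : AddChar G ℂ) (x : G) := by
    intro E h
    rw [linearIndependent_iff_card_eq_finrank_span, Fintype.card_coe, ← h]
    unfold rk Set.finrank
    rw [Set.image_eq_range]; rfl
  exact ⟨I, ⟨by omega, li _ h1⟩, ⟨by omega, li _ h2⟩⟩

end Pool.Agent.Results.MP_b06300_an.Simul
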